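import Mathlib
import Pool.Agent.H712R2.MultiBott

/-! # Project LC, FIN: finitely many parabolic and preperiodic parameters of a given type -/

set_option autoImplicit false

open Complex Filter Topology Metric Set MeasureTheory

namespace Pool.Agent.Y686.LC

open Pool.Agent.H712R2

open Polynomial in
/-- the `n`-th iterate as a polynomial in `z` with coefficients in `ℂ[c]` -/
noncomputable def it (d : ℕ) : ℕ → Polynomial (Polynomial ℂ)
  | 0 => X
  | n + 1 => it d n ^ d + C X

open Polynomial in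
theorem it_eval (d n : ℕ) (c z : ℂ) :
    ((it d n).map (evalRingHom c)).eval z = (fc d c)^[n] z := by
  induction n with
  | zero => simp [it]
  | succ n ih =>
    rw [Function.iterate_succ_apply', ← ih]
    simp [it, fc]

open Polynomial in
theorem it_deg (d : ℕ) (hd : 2 ≤ d) (n : ℕ) : (it d n).natDegree = d ^ n ∧ (it d n).Monic := by
  induction n with
  | zero => exact ⟨by simp [it], monic_X⟩
  | succ n ih =>
    have hpos : 0 < d ^ (n + 1) := by positivity
    have h1 : (it d n ^ d).natDegree = d ^ (n + 1) := by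
      rw [ih.2.natDegree_pow, ih.1]; ring
    have hm : (it d n ^ d).Monic := ih.2.pow d
    have hlt : (C (X : ℂ[X]) : Polynomial (Polynomial ℂ)).natDegree < (it d n ^ d).natDegree := by
      rw [h1, natDegree_C]; exact hpos
    refine ⟨?_, ?_⟩
    · show (it d n ^ d + C X).natDegree = _
      rw [natDegree_add_eq_left_of_natDegree_lt hlt, h1]
    · show (it d n ^ d + C X).Monic
      exact hm.add_of_left (degree_lt_degree hlt)

open Polynomial in
theorem it_zero (d : ℕ) (n : ℕ) :
    (it d n).map (evalRingHom (0 : ℂ)) = X ^ (d ^ n) := by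
  induction n with
  | zero => simp [it]
  | succ n ih =>
    simp only [it, Polynomial.map_add, Polynomial.map_pow, ih, map_C, coe_evalRingHom, eval_X,
      C_0, add_zero]
    rw [← pow_mul, pow_succ]

open Polynomial in
theorem cop (m : ℕ) :
    IsCoprime (X ^ (m + 2) - X : ℂ[X]) (C ((m + 2 : ℕ) : ℂ) * X ^ (m + 2 - 1) - 1) := by
  have h1 : ((m : ℂ) + 1) ≠ 0 := by exact_mod_cast (Nat.succ_ne_zero m)
  refine ⟨-(C (((m + 2 : ℕ) : ℂ) ^ 2 / ((m : ℂ) + 1)) * X ^ m),
    C (((m + 2 : ℕ) : ℂ) / ((m : ℂ) + 1)) * X ^ (m + 1) - 1, ?_⟩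
  have e1 : C (((m + 2 : ℕ) : ℂ) ^ 2 / ((m : ℂ) + 1))
      = C (((m + 2 : ℕ) : ℂ) / ((m : ℂ) + 1)) * C ((m + 2 : ℕ) : ℂ) := by
    rw [← C_mul]; congr 1; ring
  have e2 : C (((m + 2 : ℕ) : ℂ) / ((m : ℂ) + 1)) * C ((m + 2 : ℕ) : ℂ)
      = C (((m + 2 : ℕ) : ℂ) / ((m : ℂ) + 1)) + C ((m + 2 : ℕ) : ℂ) := by
    rw [← C_mul, ← C_add]; congr 1; push_cast; field_simp; ring
  have e3 : m + 2 - 1 = m + 1 := by omega
  rw [e1, e3]
  linear_combination (X ^ (m + 1)) * e2

open Polynomial in
theorem part1 (d N : ℕ) (hd : 2 ≤ d) (hN : 1 ≤ N) :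
    {c : ℂ | ∃ p : ℂ, (fc d c)^[N] p = p ∧ deriv ((fc d c)^[N]) p = 1}.Finite := by
  set F : Polynomial (Polynomial ℂ) := it d N - X with hF
  have hdN : 2 ≤ d ^ N := by
    calc 2 ≤ d := hd
      _ = d ^ 1 := (pow_one d).symm
      _ ≤ d ^ N := Nat.pow_le_pow_right (by omega) hN
  obtain ⟨hnd, hmon⟩ := it_deg d hd N
  have hFdeg : F.natDegree ≤ d ^ N := by
    refine (natDegree_sub_le _ _).trans ?_
    rw [hnd, natDegree_X]; omega
  have hF'deg : (derivative F).natDegree ≤ d ^ N - 1 :=
    (natDegree_derivative_le F).trans (by omega)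
  set R : ℂ[X] := F.resultant (derivative F) (d ^ N) (d ^ N - 1) with hR
  -- the specialization at `0`
  have h0 : F.map (evalRingHom (0 : ℂ)) = X ^ (d ^ N) - X := by
    rw [hF, Polynomial.map_sub, it_zero d N, map_X]
  have hd0 : (X ^ (d ^ N) - X : ℂ[X]).natDegree = d ^ N := by
    rw [natDegree_sub_eq_left_of_natDegree_lt]
    · simp
    · simp; omega
  have hder : derivative (X ^ (d ^ N) - X : ℂ[X]) = C ((d ^ N : ℕ) : ℂ) * X ^ (d ^ N - 1) - 1 := by
    simp [derivative_X_pow]
  have hne : ((d ^ N : ℕ) : ℂ) ≠ 0 := by exact_mod_cast (show d ^ N ≠ 0 by omega)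
  have hd1 : (derivative (X ^ (d ^ N) - X : ℂ[X])).natDegree = d ^ N - 1 := by
    rw [hder, natDegree_sub_eq_left_of_natDegree_lt]
    · exact natDegree_C_mul_X_pow _ _ hne
    · rw [natDegree_C_mul_X_pow _ _ hne]
      simp; omega
  have hcop : IsCoprime (X ^ (d ^ N) - X : ℂ[X]) (derivative (X ^ (d ^ N) - X : ℂ[X])) := by
    rw [hder]
    obtain ⟨m, hm⟩ : ∃ m, d ^ N = m + 2 := ⟨d ^ N - 2, by omega⟩
    rw [hm]
    exact cop m
  have hres0 : R.eval 0 ≠ 0 := by
    have h1 : (F.map (evalRingHom (0 : ℂ))).resultant ((derivative F).map (evalRingHom (0 : ℂ)))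
        (d ^ N) (d ^ N - 1) = evalRingHom (0 : ℂ) R := resultant_map_map _ _ _ _ _
    rw [← derivative_map, h0] at h1
    have h2 := resultant_ne_zero _ _ hcop
    rw [hd0, hd1, h1] at h2
    simpa using h2
  have hRne : R ≠ 0 := by
    intro h; rw [h] at hres0; simp at hres0
  obtain ⟨a, b, -, -, hab⟩ := exists_mul_add_mul_eq_C_resultant F (derivative F) hFdeg hF'deg
    (Or.inl (by omega))
  refine (R.roots.toFinset.finite_toSet).subset ?_
  rintro c ⟨p, hp1, hp2⟩
  have hFc : (F.map (evalRingHom c)).eval p = 0 := by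
    rw [hF, Polynomial.map_sub, eval_sub, it_eval, hp1, map_X, eval_X, sub_self]
  have hFc' : ((derivative F).map (evalRingHom c)).eval p = 0 := by
    rw [← derivative_map, hF, Polynomial.map_sub, derivative_sub, eval_sub, map_X, derivative_X,
      eval_one]
    have h3 : (fun z => ((it d N).map (evalRingHom c)).eval z) = (fc d c)^[N] := by
      funext z; exact it_eval d N c z
    rw [← h3] at hp2
    rw [Polynomial.deriv] at hp2
    rw [hp2, sub_self]
  have h4 := congrArg (fun q => (q.map (evalRingHom c)).eval p) hab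
  simp only [Polynomial.map_add, Polynomial.map_mul, eval_add, eval_mul, hFc, hFc', zero_mul,
    add_zero, map_C, eval_C] at h4
  have h5 : R.eval c = 0 := by simpa using h4.symm
  simp only [Finset.mem_coe, Multiset.mem_toFinset]
  exact (mem_roots hRne).2 h5

/-- the critical orbit at the parameter `1` -/
def nat (d : ℕ) : ℕ → ℕ
  | 0 => 0
  | k + 1 => nat d k ^ d + 1

theorem P_one' (d k : ℕ) : P d k 1 = (nat d k : ℂ) := by
  induction k with
  | zero => simp [P, nat]
  | succ k ih =>
    unfold P at ih ⊢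
    rw [Function.iterate_succ_apply', ih]
    simp [fc, nat]

theorem nat_strict (d : ℕ) (hd : 2 ≤ d) : StrictMono (nat d) := by
  refine strictMono_nat_of_lt_succ fun k => ?_
  show nat d k < nat d k ^ d + 1
  have : nat d k ≤ nat d k ^ d := Nat.le_self_pow (by omega) _
  omega

open Polynomial in
/-- the critical orbit as a polynomial -/
noncomputable def Q (d : ℕ) : ℕ → ℂ[X]
  | 0 => 0
  | k + 1 => Q d k ^ d + X

open Polynomial in
theorem Q_eval (d k : ℕ) (c : ℂ) : (Q d k).eval c = P d k c := by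
  induction k with
  | zero => simp [P, Q]
  | succ k ih =>
    unfold P at ih ⊢
    rw [Function.iterate_succ_apply', ← ih]
    simp [fc, Q]

theorem part2 (d N : ℕ) (hd : 2 ≤ d) (hN : 1 ≤ N) (n : ℕ) :
    {c : ℂ | P d (n + N) c = P d n c}.Finite := by
  have hne : Q d (n + N) - Q d n ≠ 0 := by
    intro h
    have h1 : (Q d (n + N)).eval 1 = (Q d n).eval 1 := by rw [sub_eq_zero.1 h]
    rw [Q_eval, Q_eval, P_one', P_one'] at h1
    have h2 := nat_strict d hd (show n < n + N by omega)
    have h3 : nat d (n + N) = nat d n := by exact_mod_cast h1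
    omega
  refine ((Q d (n + N) - Q d n).roots.toFinset.finite_toSet).subset ?_
  intro c hc
  simp only [Finset.mem_coe, Multiset.mem_toFinset]
  refine (Polynomial.mem_roots hne).2 ?_
  simp only [Polynomial.IsRoot, Polynomial.eval_sub, Q_eval]
  exact sub_eq_zero.2 hc

end Pool.Agent.Y686.LC
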