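import Pool.Agent.Y272.LC.Stm
import Pool.Agent.Y686.LC.FinA

set_option autoImplicit false

/-! # Project LC, FIN -/

namespace Pool.Agent.Y686.LC

open Pool.Agent.H712R2 Pool.Agent.Y272.LC

/-- FIN -/
theorem t : St_Fin := fun d N hd hN =>
  ⟨(part1 d N hd hN).countable, fun n _ => (part2 d N hd hN n).countable⟩

end Pool.Agent.Y686.LC
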